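import Pool.Agent.LibKS44.F0

/-!
# LibST58.Sym : the representation `Sym ^ n`

`sym n g` is the matrix of `P(x, y) ↦ P((x, y) g)` on the homogeneous polynomials of degree `n`, in the basis
`x ^ (n - j) y ^ j`; we write it down with `x = 1`, `y = X`.
-/

set_option autoImplicit false

open Matrix Polynomial

namespace KS44

/-- `(g₀₀ + g₁₀ X) ^ (n - j) (g₀₁ + g₁₁ X) ^ j` -/
noncomputable def symPoly (n : ℕ) (g : Mat) (j : ℕ) : ℤ[X] :=
  (C (g 0 0) + C (g 1 0) * X) ^ (n - j) * (C (g 0 1) + C (g 1 1) * X) ^ j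

/-- the matrix of `g` on the homogeneous polynomials of degree `n` -/
noncomputable def sym (n : ℕ) (g : Mat) : Matrix (Fin (n + 1)) (Fin (n + 1)) ℤ :=
  fun i j => (symPoly n g j).coeff i

/-- homogeneous evaluation -/
def hev {R : Type} [CommRing R] (m : ℕ) (q : ℤ[X]) (x y : R) : R :=
  ∑ i ∈ Finset.range (m + 1), (q.coeff i : R) * x ^ (m - i) * y ^ i

theorem hev_one {R : Type} [CommRing R] (x y : R) : hev 0 (1 : ℤ[X]) x y = 1 := by
  simp [hev]

theorem hev_mul {R : Type} [CommRing R] (m : ℕ) (q : ℤ[X]) (hq : q.natDegree ≤ m) (a c : ℤ) (x y : R) :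
    hev (m + 1) ((C a + C c * X) * q) x y = (a * x + c * y) * hev m q x y := by
  have hco : ∀ i, ((C a + C c * X) * q).coeff (i + 1) = a * q.coeff (i + 1) + c * q.coeff i := by
    intro i
    rw [add_mul, coeff_add, coeff_C_mul, mul_assoc, coeff_C_mul, coeff_X_mul]
  have hc0 : ((C a + C c * X) * q).coeff 0 = a * q.coeff 0 := by
    rw [add_mul, coeff_add, coeff_C_mul, mul_assoc, coeff_C_mul, coeff_X_mul_zero, mul_zero, add_zero]
  have hqm : q.coeff (m + 1) = 0 := coeff_eq_zero_of_natDegree_lt (by omega)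
  have h1 : hev (m + 1) ((C a + C c * X) * q) x y =
      (∑ i ∈ Finset.range (m + 1 + 1), (a : R) * ((q.coeff i : R) * x ^ (m + 1 - i) * y ^ i)) +
      ∑ i ∈ Finset.range (m + 1), (c : R) * ((q.coeff i : R) * x ^ (m - i) * y ^ (i + 1)) := by
    unfold hev
    rw [Finset.sum_range_succ' _ (m + 1), Finset.sum_range_succ' _ (m + 1), hc0]
    have h2 : ∑ i ∈ Finset.range (m + 1),
        (((C a + C c * X) * q).coeff (i + 1) : R) * x ^ (m + 1 - (i + 1)) * y ^ (i + 1) =
        (∑ i ∈ Finset.range (m + 1), (a : R) * ((q.coeff (i + 1) : R) * x ^ (m + 1 - (i + 1)) * y ^ (i + 1))) +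
        ∑ i ∈ Finset.range (m + 1), (c : R) * ((q.coeff i : R) * x ^ (m - i) * y ^ (i + 1)) := by
      rw [← Finset.sum_add_distrib]
      refine Finset.sum_congr rfl fun i _ => ?_
      rw [hco, Nat.add_sub_add_right]
      push_cast
      ring
    rw [h2]
    push_cast
    ring
  rw [h1, Finset.sum_range_succ, hqm]
  unfold hev
  rw [Finset.mul_sum]
  have h3 : ∀ i ∈ Finset.range (m + 1), (a : R) * ((q.coeff i : R) * x ^ (m + 1 - i) * y ^ i) =
      (a : R) * x * ((q.coeff i : R) * x ^ (m - i) * y ^ i) := by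
    intro i hi
    have : m + 1 - i = (m - i) + 1 := by
      have := Finset.mem_range.mp hi
      omega
    rw [this, pow_succ]
    ring
  rw [Finset.sum_congr rfl h3]
  simp only [Int.cast_zero, zero_mul, mul_zero, add_zero]
  rw [← Finset.sum_add_distrib]
  refine Finset.sum_congr rfl fun i _ => ?_
  ring

theorem lin_natDegree (a c : ℤ) : (C a + C c * X : ℤ[X]).natDegree ≤ 1 := by
  rw [add_comm]
  exact natDegree_linear_le

theorem hev_pow {R : Type} [CommRing R] (m k : ℕ) (q : ℤ[X]) (hq : q.natDegree ≤ m) (a c : ℤ) (x y : R) :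
    hev (k + m) ((C a + C c * X) ^ k * q) x y = (a * x + c * y) ^ k * hev m q x y := by
  induction k with
  | zero => rw [pow_zero, one_mul, pow_zero, one_mul, zero_add]
  | succ k ih =>
    have h1 : ((C a + C c * X) ^ k * q : ℤ[X]).natDegree ≤ k + m := by
      refine natDegree_mul_le.trans (Nat.add_le_add ?_ hq)
      refine natDegree_pow_le.trans ?_
      calc k * _ ≤ k * 1 := Nat.mul_le_mul_left _ (lin_natDegree a c)
        _ = k := mul_one k
    have h2 : k + 1 + m = (k + m) + 1 := by ring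
    rw [h2, pow_succ', mul_assoc, hev_mul _ _ h1, ih, pow_succ', mul_assoc]

theorem symPoly_natDegree (n : ℕ) (g : Mat) {j : ℕ} (hj : j ≤ n) : (symPoly n g j).natDegree ≤ n := by
  unfold symPoly
  refine natDegree_mul_le.trans ?_
  have h1 : ((C (g 0 0) + C (g 1 0) * X : ℤ[X]) ^ (n - j)).natDegree ≤ n - j := by
    refine natDegree_pow_le.trans ?_
    calc (n - j) * _ ≤ (n - j) * 1 := Nat.mul_le_mul_left _ (lin_natDegree _ _)
      _ = n - j := mul_one _
  have h2 : ((C (g 0 1) + C (g 1 1) * X : ℤ[X]) ^ j).natDegree ≤ j := by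
    refine natDegree_pow_le.trans ?_
    calc j * _ ≤ j * 1 := Nat.mul_le_mul_left _ (lin_natDegree _ _)
      _ = j := mul_one _
  omega

theorem hev_sym {R : Type} [CommRing R] (n : ℕ) (g : Mat) {j : ℕ} (hj : j ≤ n) (x y : R) :
    hev n (symPoly n g j) x y = (g 0 0 * x + g 1 0 * y) ^ (n - j) * (g 0 1 * x + g 1 1 * y) ^ j := by
  have h1 := hev_pow (R := R) 0 j 1 (by simp) (g 0 1) (g 1 1) x y
  rw [mul_one, hev_one, mul_one, add_zero] at h1
  have h2 : ((C (g 0 1) + C (g 1 1) * X : ℤ[X]) ^ j).natDegree ≤ j := by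
    refine natDegree_pow_le.trans ?_
    calc j * _ ≤ j * 1 := Nat.mul_le_mul_left _ (lin_natDegree _ _)
      _ = j := mul_one _
  have h3 := hev_pow (R := R) j (n - j) _ h2 (g 0 0) (g 1 0) x y
  rw [h1, Nat.sub_add_cancel hj] at h3
  exact h3

theorem hev_X (n : ℕ) (q : ℤ[X]) (hq : q.natDegree ≤ n) : hev n q (1 : ℤ[X]) X = q := by
  unfold hev
  conv_rhs => rw [q.as_sum_range' (n + 1) (by omega)]
  refine Finset.sum_congr rfl fun i _ => ?_
  rw [one_pow, mul_one, ← C_mul_X_pow_eq_monomial]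
  simp

theorem sym_mul (n : ℕ) (g h : Mat) : sym n (g * h) = sym n g * sym n h := by
  ext i j
  have hj : (j : ℕ) ≤ n := Nat.lt_succ_iff.mp j.2
  have h1 : symPoly n (g * h) j = ∑ k : Fin (n + 1), C (sym n h k j) * symPoly n g k := by
    have e1 := hev_sym n h hj (C (g 0 0) + C (g 1 0) * X) (C (g 0 1) + C (g 1 1) * X)
    have e2 : symPoly n (g * h) j = ((h 0 0 : ℤ[X]) * (C (g 0 0) + C (g 1 0) * X) +
        (h 1 0 : ℤ[X]) * (C (g 0 1) + C (g 1 1) * X)) ^ (n - (j : ℕ)) *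
        ((h 0 1 : ℤ[X]) * (C (g 0 0) + C (g 1 0) * X) +
        (h 1 1 : ℤ[X]) * (C (g 0 1) + C (g 1 1) * X)) ^ (j : ℕ) := by
      unfold symPoly
      rw [Matrix.mul_apply, Matrix.mul_apply, Matrix.mul_apply, Matrix.mul_apply, Fin.sum_univ_two,
        Fin.sum_univ_two, Fin.sum_univ_two, Fin.sum_univ_two]
      simp only [map_add, map_mul, eq_intCast]
      congr 2 <;> ring
    rw [e2, ← e1]
    unfold hev
    rw [← Fin.sum_univ_eq_sum_range (fun i => ((symPoly n h j).coeff i : ℤ[X]) *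
      (C (g 0 0) + C (g 1 0) * X) ^ (n - i) * (C (g 0 1) + C (g 1 1) * X) ^ i) (n + 1)]
    refine Finset.sum_congr rfl fun k _ => ?_
    rw [mul_assoc, eq_intCast C]
    rfl
  change (symPoly n (g * h) j).coeff i = _
  rw [h1, finsetSum_coeff, Matrix.mul_apply]
  refine Finset.sum_congr rfl fun k _ => ?_
  rw [coeff_C_mul, mul_comm]
  rfl

theorem sym_scalar (n : ℕ) (a : ℤ) : sym n (a • (1 : Mat)) = (a ^ n) • (1 : Matrix (Fin (n + 1)) (Fin (n + 1)) ℤ) := by
  ext i j
  have hj : (j : ℕ) ≤ n := Nat.lt_succ_iff.mp j.2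
  change (symPoly n (a • (1 : Mat)) j).coeff i = _
  have h1 : symPoly n (a • (1 : Mat)) j = C (a ^ n) * X ^ (j : ℕ) := by
    unfold symPoly
    simp only [Matrix.smul_apply, Matrix.one_apply, smul_eq_mul]
    norm_num
    rw [mul_pow, ← mul_assoc, ← pow_add, Nat.sub_add_cancel hj]
  rw [h1, coeff_C_mul, coeff_X_pow, Matrix.smul_apply, Matrix.one_apply, smul_eq_mul]
  congr 1
  simp only [Fin.ext_iff]

theorem sym_one (n : ℕ) : sym n 1 = 1 := by
  have h := sym_scalar n 1
  rwa [one_smul, one_pow, one_smul] at h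

theorem sym_cong (n ℓ : ℕ) (g h : Mat) (hgh : ∀ i j, (ℓ : ℤ) ∣ g i j - h i j) (i j : Fin (n + 1)) :
    (ℓ : ℤ) ∣ sym n g i j - sym n h i j := by
  have h1 : ∀ i j, ((g i j : ℤ) : ZMod ℓ) = ((h i j : ℤ) : ZMod ℓ) := by
    intro i j
    have h2 := (ZMod.intCast_zmod_eq_zero_iff_dvd _ ℓ).mpr (hgh i j)
    push_cast at h2
    exact sub_eq_zero.mp h2
  rw [← ZMod.intCast_zmod_eq_zero_iff_dvd]
  push_cast
  rw [sub_eq_zero]
  have h3 : (symPoly n g j).map (Int.castRingHom (ZMod ℓ)) = (symPoly n h j).map (Int.castRingHom (ZMod ℓ)) := by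
    unfold symPoly
    simp only [Polynomial.map_mul, Polynomial.map_pow, Polynomial.map_add, map_C, map_X, Int.coe_castRingHom, h1]
  have h4 := congrArg (fun q => q.coeff (i : ℕ)) h3
  simp only [coeff_map, eq_intCast] at h4
  exact h4

theorem sym_rep (n ℓ : ℕ) : IsRep ℓ (sym n) where
  one := sym_one n
  mul g h _ _ := sym_mul n g h
  cong := ⟨1, fun g h _ _ hgh a b => sym_cong n ℓ g h (fun i j => by
    have := hgh i j
    rwa [pow_one] at this) a b⟩

end KS44
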